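import Mathlib

/-!
The lemma of du Bois-Reymond on the line, for locally integrable functions.
-/

set_option autoImplicit false

open MeasureTheory Filter Topology Set
open scoped ENNReal NNReal ContDiff

namespace Pool.Agent.K3h9.LT

/-- a compactly supported function is supported in some `Ioo (-R) R` -/
theorem exists_supp {φ : ℝ → ℝ} (hφ : HasCompactSupport φ) :
    ∃ R : ℝ, 0 < R ∧ tsupport φ ⊆ Ioo (-R) R := by
  obtain ⟨R, hR⟩ := hφ.isCompact.isBounded.subset_ball (0 : ℝ)
  refine ⟨max R 1, lt_of_lt_of_le one_pos (le_max_right _ _), fun x hx => ?_⟩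
  have h1 := hR hx
  rw [Metric.mem_ball, dist_zero_right, Real.norm_eq_abs] at h1
  exact abs_lt.mp (lt_of_lt_of_le h1 (le_max_left _ _))

theorem loc_interval {G : ℝ → ℝ} (hG : LocallyIntegrable G volume) (a b : ℝ) :
    IntervalIntegrable G volume a b :=
  intervalIntegrable_iff.mpr <|
      (hG.integrableOn_isCompact isCompact_uIcc).mono_set uIoc_subset_uIcc

/-- integration by parts against the primitive of a locally integrable function -/
theorem prim_parts {G : ℝ → ℝ} (hG : LocallyIntegrable G volume) {φ : ℝ → ℝ}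
    (hφ : ContDiff ℝ ∞ φ) (hc : HasCompactSupport φ) :
    ∫ x, (∫ t in (0 : ℝ)..x, G t) * deriv φ x = - ∫ x, G x * φ x := by
  obtain ⟨R, hR, hs⟩ := exists_supp hc
  have hGi := loc_interval hG (-R) R
  have h0 : (0 : ℝ) ∈ uIcc (-R) R := by
    rw [uIcc_of_le (by linarith)]
    constructor <;> linarith
  have hF := hGi.absolutelyContinuousOnInterval_intervalIntegral h0
  have hφa : AbsolutelyContinuousOnInterval φ (-R) R := by
    have h1 : ContDiff ℝ 1 φ := hφ.of_le (by exact_mod_cast le_top)
    exact h1.contDiffOn.absolutelyContinuousOnInterval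
  have h1 := hF.integral_mul_deriv_eq_deriv_mul hφa
  have e1 : φ R = 0 := by
    by_contra h
    have := (hs (subset_tsupport _ h)).2
    exact lt_irrefl _ this
  have e2 : φ (-R) = 0 := by
    by_contra h
    have := (hs (subset_tsupport _ h)).1
    exact lt_irrefl _ this
  rw [e1, e2, mul_zero, mul_zero, sub_zero, zero_sub] at h1
  have e3 : ∫ x in (-R)..R, (∫ t in (0 : ℝ)..x, G t) * deriv φ x =
      ∫ x, (∫ t in (0 : ℝ)..x, G t) * deriv φ x := by
    apply intervalIntegral.integral_eq_integral_of_support_subset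
    intro x hx
    have h2 : deriv φ x ≠ 0 := fun h => hx (by simp [h])
    exact Ioo_subset_Ioc_self (hs (support_deriv_subset h2))
  have e4 : ∫ x in (-R)..R, deriv (fun x => ∫ t in (0 : ℝ)..x, G t) x * φ x =
      ∫ x, G x * φ x := by
    have e5 : ∫ x in (-R)..R, deriv (fun x => ∫ t in (0 : ℝ)..x, G t) x * φ x =
        ∫ x in (-R)..R, G x * φ x := by
      apply intervalIntegral.integral_congr_ae
      filter_upwards [_root_.LocallyIntegrable.ae_hasDerivAt_integral hG] with x hx _
      rw [(hx 0).deriv]
    rw [e5]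
    apply intervalIntegral.integral_eq_integral_of_support_subset
    intro x hx
    have h2 : φ x ≠ 0 := fun h => hx (by simp [h])
    exact Ioo_subset_Ioc_self (hs (subset_tsupport _ h2))
  rw [← e3, h1, e4]

/-- a function with weak derivative zero is constant -/
theorem const_of_weak {v : ℝ → ℝ} (hv : LocallyIntegrable v volume)
    (h : ∀ φ : ℝ → ℝ, ContDiff ℝ ∞ φ → HasCompactSupport φ → ∫ x, v x * deriv φ x = 0) :
    ∃ c : ℝ, v =ᵐ[volume] fun _ => c := by
  -- a bump function with integral one
  let b : ContDiffBump (0 : ℝ) := ⟨1, 2, one_pos, one_lt_two⟩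
  set ρ : ℝ → ℝ := b.normed volume with hρ
  have hρs : ContDiff ℝ ∞ ρ := b.contDiff_normed
  have hρc : HasCompactSupport ρ := b.hasCompactSupport_normed
  have hρi : ∫ x, ρ x = 1 := b.integral_normed
  set c : ℝ := ∫ x, v x * ρ x with hcdef
  refine ⟨c, ?_⟩
  have hvc : LocallyIntegrable (fun x => v x - c) volume :=
    hv.sub (locallyIntegrable_const c)
  have key : ∀ φ : ℝ → ℝ, ContDiff ℝ ∞ φ → HasCompactSupport φ →
      ∫ x, φ x • (v x - c) = 0 := by
    intro φ hφ hφc
    set m : ℝ := ∫ x, φ x with hm
    set χ : ℝ → ℝ := fun x => φ x - m * ρ x with hχ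
    have hχs : ContDiff ℝ ∞ χ := hφ.sub (contDiff_const.mul hρs)
    have hχc : HasCompactSupport χ := hφc.sub (hρc.mul_left)
    have hχcont : Continuous χ := hχs.continuous
    have hφi : Integrable φ := hφ.continuous.integrable_of_hasCompactSupport hφc
    have hρint : Integrable ρ := hρs.continuous.integrable_of_hasCompactSupport hρc
    have hχ0 : ∫ x, χ x = 0 := by
      rw [hχ, integral_sub hφi (hρint.const_mul m), integral_const_mul, hρi, mul_one, hm, sub_self]
    obtain ⟨R, hR, hs⟩ := exists_supp hχc
    set ψ : ℝ → ℝ := fun x => ∫ t in (-R)..x, χ t with hψ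
    have hψd : ∀ x, HasDerivAt ψ (χ x) x := fun x =>
      intervalIntegral.integral_hasDerivAt_right (hχcont.intervalIntegrable _ _)
        (hχcont.stronglyMeasurableAtFilter _ _) hχcont.continuousAt
    have hψs : ContDiff ℝ ∞ ψ := by
      rw [contDiff_infty_iff_deriv]
      refine ⟨fun x => (hψd x).differentiableAt, ?_⟩
      have : deriv ψ = χ := funext fun x => (hψd x).deriv
      rw [this]
      exact hχs
    have hψc : HasCompactSupport ψ := by
      refine HasCompactSupport.intro (isCompact_Icc : IsCompact (Icc (-R) R)) (fun x hx => ?_)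
      rcases lt_or_ge x (-R) with h1 | h1
      · have h2 : EqOn χ (fun _ => 0) (uIcc (-R) x) := by
          intro t ht
          by_contra h3
          have h4 := hs (subset_tsupport _ h3)
          rw [uIcc_of_ge h1.le] at ht
          linarith [h4.1, ht.2]
        change ∫ t in (-R)..x, χ t = 0
        rw [intervalIntegral.integral_congr h2]
        simp
      · have h2 : R < x := by
          by_contra h3
          exact hx ⟨h1, not_lt.mp h3⟩
        change ∫ t in (-R)..x, χ t = 0
        rw [intervalIntegral.integral_eq_integral_of_support_subset, hχ0]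
        intro t ht
        have h4 := hs (subset_tsupport _ ht)
        exact ⟨h4.1, (h4.2.trans h2).le⟩
    have h1 := h ψ hψs hψc
    have h2 : ∫ x, v x * deriv ψ x = ∫ x, v x * χ x := by
      congr 1
      funext x
      rw [(hψd x).deriv]
    rw [h2] at h1
    have hvφ : Integrable (fun x => v x * φ x) := by
      have := hv.integrable_smul_left_of_hasCompactSupport hφ.continuous hφc
      refine this.congr (Eventually.of_forall fun x => ?_)
      simp [mul_comm]
    have hvρ : Integrable (fun x => v x * ρ x) := by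
      have := hv.integrable_smul_left_of_hasCompactSupport hρs.continuous hρc
      refine this.congr (Eventually.of_forall fun x => ?_)
      simp [mul_comm]
    have h3 : ∫ x, v x * χ x = (∫ x, v x * φ x) - m * c := by
      have e1 : (fun x => v x * χ x) = fun x => v x * φ x - m * (v x * ρ x) := by
        funext x
        rw [hχ]
        ring
      rw [e1, integral_sub hvφ (hvρ.const_mul m), integral_const_mul, hcdef]
    rw [h3] at h1
    have e2 : (fun x => φ x • (v x - c)) = fun x => v x * φ x - c * φ x := by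
      funext x
      rw [smul_eq_mul]
      ring
    rw [e2, integral_sub hvφ (hφi.const_mul c), integral_const_mul]
    rw [← hm]
    linarith
  have h4 := ae_eq_zero_of_integral_contDiff_smul_eq_zero hvc key
  filter_upwards [h4] with x hx
  linarith

/-- The lemma of du Bois-Reymond. -/
theorem dbr_real {u G : ℝ → ℝ} (hu : LocallyIntegrable u volume)
    (hG : LocallyIntegrable G volume)
    (h : ∀ φ : ℝ → ℝ, ContDiff ℝ ∞ φ → HasCompactSupport φ →
      ∫ x, u x * deriv φ x = - ∫ x, G x * φ x) :
    ∃ c : ℝ, u =ᵐ[volume] fun x => c + ∫ t in (0 : ℝ)..x, G t := by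
  have hFc : Continuous (fun x => ∫ t in (0 : ℝ)..x, G t) :=
    intervalIntegral.continuous_primitive (fun a b => loc_interval hG a b) 0
  have hv : LocallyIntegrable (fun x => u x - ∫ t in (0 : ℝ)..x, G t) volume :=
    hu.sub hFc.locallyIntegrable
  obtain ⟨c, hc⟩ := const_of_weak hv (by
    intro φ hφ hφc
    have hd : Continuous (deriv φ) := hφ.continuous_deriv (by exact_mod_cast le_top)
    have hdc : HasCompactSupport (deriv φ) := hφc.deriv
    have h1 : Integrable (fun x => u x * deriv φ x) := by
      have := hu.integrable_smul_left_of_hasCompactSupport hd hdc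
      refine this.congr (Eventually.of_forall fun x => ?_)
      simp [mul_comm]
    have h2 : Integrable (fun x => (∫ t in (0 : ℝ)..x, G t) * deriv φ x) :=
      (hFc.mul hd).integrable_of_hasCompactSupport hdc.mul_left
    have e1 : (fun x => (u x - ∫ t in (0 : ℝ)..x, G t) * deriv φ x) =
        fun x => u x * deriv φ x - (∫ t in (0 : ℝ)..x, G t) * deriv φ x := by
      funext x
      ring
    rw [e1, integral_sub h1 h2, h φ hφ hφc, prim_parts hG hφ hφc, sub_self])
  refine ⟨c, ?_⟩
  filter_upwards [hc] with x hx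
  linarith

/-- The lemma of du Bois-Reymond, complex values. -/
theorem dbr_complex {u G : ℝ → ℂ} (hu : LocallyIntegrable u volume)
    (hG : LocallyIntegrable G volume)
    (h : ∀ φ : ℝ → ℝ, ContDiff ℝ ∞ φ → HasCompactSupport φ →
      ∫ x, u x * ((deriv φ x : ℝ) : ℂ) = - ∫ x, G x * (φ x : ℂ)) :
    ∃ c : ℂ, u =ᵐ[volume] fun x => c + ∫ t in (0 : ℝ)..x, G t := by
  have hint : ∀ {w : ℝ → ℂ}, LocallyIntegrable w volume → ∀ {φ : ℝ → ℝ}, Continuous φ →
      HasCompactSupport φ → Integrable (fun x => w x * (φ x : ℂ)) := by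
    intro w hw φ hφ hφc
    have := hw.integrable_smul_left_of_hasCompactSupport hφ hφc
    refine this.congr (Eventually.of_forall fun x => ?_)
    simp [mul_comm]
  have hre : ∀ {w : ℝ → ℂ}, LocallyIntegrable w volume →
      LocallyIntegrable (fun x => (w x).re) volume := by
    intro w hw x
    obtain ⟨s, hs, hi⟩ := hw x
    exact ⟨s, hs, hi.re⟩
  have him : ∀ {w : ℝ → ℂ}, LocallyIntegrable w volume →
      LocallyIntegrable (fun x => (w x).im) volume := by
    intro w hw x
    obtain ⟨s, hs, hi⟩ := hw x
    exact ⟨s, hs, hi.im⟩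
  have hRe : ∀ {w : ℝ → ℂ}, LocallyIntegrable w volume → ∀ {φ : ℝ → ℝ}, Continuous φ →
      HasCompactSupport φ → ∫ x, (w x).re * φ x = (∫ x, w x * (φ x : ℂ)).re := by
    intro w hw φ hφ hφc
    have h1 : (∫ x, w x * (φ x : ℂ)).re = ∫ x, (w x * (φ x : ℂ)).re :=
      (integral_re (hint hw hφ hφc)).symm
    rw [h1]
    congr 1
    funext x
    simp
  have hIm : ∀ {w : ℝ → ℂ}, LocallyIntegrable w volume → ∀ {φ : ℝ → ℝ}, Continuous φ →
      HasCompactSupport φ → ∫ x, (w x).im * φ x = (∫ x, w x * (φ x : ℂ)).im := by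
    intro w hw φ hφ hφc
    have h1 : (∫ x, w x * (φ x : ℂ)).im = ∫ x, (w x * (φ x : ℂ)).im :=
      (integral_im (hint hw hφ hφc)).symm
    rw [h1]
    congr 1
    funext x
    simp
  obtain ⟨c1, h1⟩ := dbr_real (hre hu) (hre hG) (by
    intro φ hφ hφc
    have hd : Continuous (deriv φ) := hφ.continuous_deriv (by exact_mod_cast le_top)
    rw [hRe hu hd hφc.deriv, hRe hG hφ.continuous hφc, h φ hφ hφc, Complex.neg_re])
  obtain ⟨c2, h2⟩ := dbr_real (him hu) (him hG) (by
    intro φ hφ hφc
    have hd : Continuous (deriv φ) := hφ.continuous_deriv (by exact_mod_cast le_top)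
    rw [hIm hu hd hφc.deriv, hIm hG hφ.continuous hφc, h φ hφ hφc, Complex.neg_im])
  refine ⟨⟨c1, c2⟩, ?_⟩
  filter_upwards [h1, h2] with x hx1 hx2
  have hGi : IntervalIntegrable G volume 0 x := intervalIntegrable_iff.mpr <|
      (hG.integrableOn_isCompact isCompact_uIcc).mono_set uIoc_subset_uIcc
  apply Complex.ext
  · rw [hx1, Complex.add_re]
    congr 1
    exact intervalIntegral.intervalIntegral_re hGi
  · rw [hx2, Complex.add_im]
    congr 1
    exact intervalIntegral.intervalIntegral_im hGi

end Pool.Agent.K3h9.LT
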