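import Pool.Agent.K3h53.LT.Stm
import Pool.Agent.Helper41.CE.CU50
import Pool.Agent.Helper41.CE.CU51
import Pool.Agent.K3h9.LT.DBR

/-!
Brick REG: a solution in `L²` in the operator sense is a classical solution.
-/

set_option autoImplicit false

open MeasureTheory Filter Topology Set
open scoped ENNReal NNReal ContDiff

namespace Pool.Agent.K3h9.LT

open Pool.Agent.Helper41.CE

/-- the coordinate `E 1 ≃ ℝ` -/
noncomputable def eL : E 1 ≃ₗ[ℝ] ℝ where
  toFun x := x 0
  map_add' x y := rfl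
  map_smul' c x := rfl
  invFun s := EuclideanSpace.single 0 s
  left_inv x := by
    ext i
    rw [Subsingleton.elim i 0]
    simp
  right_inv s := by simp

/-- the coordinate `E 1 ≃ ℝ` as an isometry -/
noncomputable def eI : E 1 ≃ₗᵢ[ℝ] ℝ where
  toLinearEquiv := eL
  norm_map' x := by
    change ‖x 0‖ = ‖x‖
    rw [EuclideanSpace.norm_eq]
    simp [Real.sqrt_sq_eq_abs]

theorem eI_apply (x : E 1) : eI x = x 0 := rfl

theorem eI_symm (s : ℝ) : (eI.symm s) 0 = s := eI.apply_symm_apply s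

theorem mp_symm : MeasurePreserving (eI.symm : ℝ → E 1) volume volume :=
  eI.symm.measurePreserving

theorem mp_eI : MeasurePreserving (eI : E 1 → ℝ) volume volume :=
  eI.measurePreserving

theorem int_transfer (F : E 1 → ℂ) : ∫ x, F x = ∫ s, F (eI.symm s) :=
  (mp_symm.integral_comp eI.symm.toHomeomorph.measurableEmbedding F).symm

/-- the test function on `E 1` made of a test function on the line -/
noncomputable def tf (φ : ℝ → ℝ) (x : E 1) : ℂ := (φ (x 0) : ℂ)

theorem tf_test {φ : ℝ → ℝ} (hφ : ContDiff ℝ ∞ φ) (hc : HasCompactSupport φ) : IsTest (tf φ) := by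
  constructor
  · have h1 : ContDiff ℝ ∞ (fun x : E 1 => eI x) := eI.contDiff
    exact Complex.ofRealCLM.contDiff.comp (hφ.comp h1)
  · have h1 : HasCompactSupport (fun s : ℝ => (φ s : ℂ)) := hc.comp_left (g := Complex.ofReal)
      Complex.ofReal_zero
    exact h1.comp_homeomorph eI.toHomeomorph

theorem tf_pd {φ : ℝ → ℝ} (hφ : ContDiff ℝ ∞ φ) : pd 0 (tf φ) = tf (deriv φ) := by
  funext x
  unfold pd
  have h1 : HasDerivAt φ (deriv φ (x 0)) (x 0) :=
    (hφ.differentiable (by simp) (x 0)).hasDerivAt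
  have h2 : HasFDerivAt (fun x : E 1 => eI x) (eI.toContinuousLinearEquiv : E 1 →L[ℝ] ℝ) x :=
    eI.toContinuousLinearEquiv.hasFDerivAt
  have h3 : HasFDerivAt (fun x : E 1 => φ (eI x))
      (deriv φ (x 0) • (eI.toContinuousLinearEquiv : E 1 →L[ℝ] ℝ)) x :=
    HasDerivAt.comp_hasFDerivAt x h1 h2
  have h4 : HasFDerivAt (tf φ) (Complex.ofRealCLM.comp
      (deriv φ (x 0) • (eI.toContinuousLinearEquiv : E 1 →L[ℝ] ℝ))) x :=
    Complex.ofRealCLM.hasFDerivAt.comp x h3
  rw [h4.fderiv]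
  have h5 : (eI.toContinuousLinearEquiv : E 1 →L[ℝ] ℝ) (EuclideanSpace.single 0 1) = 1 := by
    change (EuclideanSpace.single (0 : Fin 1) (1 : ℝ) : E 1) 0 = 1
    simp
  rw [ContinuousLinearMap.comp_apply, _root_.smul_apply, h5]
  simp [tf]

open FourierTransform in
/-- the weak form of `g'' = k` when `FT k = - ρ FT g` -/
theorem weak_two (g k : L2 1)
    (h : (FT 1 k : E 1 → ℂ) =ᵐ[volume] fun ξ => -(rho ξ : ℂ) * (FT 1 g) ξ)
    (φ : E 1 → ℂ) (hφ : IsTest φ) :
    pair g (pd 0 (pd 0 φ)) = pair k φ := by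
  have hφ1 := pd_test 0 φ hφ
  rw [pair_eq_inner _ _ (pd_test 0 _ hφ1), pair_eq_inner _ _ hφ,
    ← (FT 1).inner_map_map ((cs (pd 0 (pd 0 φ)) (pd_test 0 _ hφ1)).toLp 2 volume : L2 1) g,
    ← (FT 1).inner_map_map ((cs φ hφ).toLp 2 volume : L2 1) k, FT_toLp, FT_toLp,
    L2.inner_def, L2.inner_def]
  apply integral_congr_ae
  filter_upwards [(𝓕 (cs (pd 0 (pd 0 φ)) (pd_test 0 _ hφ1))).coeFn_toLp 2 volume,
    (𝓕 (cs φ hφ)).coeFn_toLp 2 volume, h] with ξ h1 h2 h3
  rw [h1, h2, h3, F_pd 0 (pd 0 φ) hφ1, F_pd 0 φ hφ]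
  have h8 : (rho ξ : ℂ) = 4 * (Real.pi : ℂ) ^ 2 * (ξ 0 : ℂ) ^ 2 := by
    have h9 : ‖ξ‖ ^ 2 = (ξ 0) ^ 2 := by
      rw [EuclideanSpace.norm_sq_eq]
      simp
    unfold rho
    rw [h9]
    push_cast
    ring
  rw [h8]
  simp only [RCLike.inner_apply, map_mul, Complex.conj_I, Complex.conj_ofReal, map_ofNat]
  linear_combination (4 * (Real.pi : ℂ) ^ 2 * (ξ 0 : ℂ) ^ 2 *
    (starRingEnd ℂ) ((𝓕 (cs φ hφ)) ξ) * (FT 1 g) ξ) * Complex.I_sq

theorem t_reg : Pool.Agent.K3h53.LT.St_reg := by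
  intro lam Q g _ hlam hQ hQb hg heq
  obtain ⟨C, hC⟩ := hQb
  have hcoord : Continuous (fun x : E 1 => x 0) := eI.continuous
  have hBMQ : BM (fun x : E 1 => Q (x 0)) :=
    ⟨(hQ.comp hcoord).measurable, C, fun x => hC _⟩
  have hBMQl : BM (fun x : E 1 => Q (x 0) - lam) := by
    refine ⟨((hQ.comp hcoord).sub continuous_const).measurable, C + ‖lam‖, fun x => ?_⟩
    exact (norm_sub_le _ _).trans (by gcongr; exact hC _)
  set z : ℂ := -lam with hz
  have hzi : 0 < z.im := by
    rw [hz, Complex.neg_im]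
    linarith
  set h : L2 1 := mulop (fun x : E 1 => Q (x 0) - lam) g with hh
  set k : L2 1 := mulop (fun x : E 1 => Q (x 0)) g with hk
  have hgR : g = -(Rz z h) := eq_neg_of_add_eq_zero_left heq
  -- the potential in `L²`
  have hhk : h = k - lam • g := by
    apply Lp.ext
    filter_upwards [mulop_spec hBMQl g, mulop_spec hBMQ g, Lp.coeFn_sub k (lam • g),
      Lp.coeFn_smul lam g] with x h1 h2 h3 h4
    rw [h3, Pi.sub_apply, h4, Pi.smul_apply, smul_eq_mul, h1, h2]
    ring
  -- first derivative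
  set w : L2 1 := -(Fm (exx_mu z) (Ah 1 h)) with hw
  have hAw : Ah 1 w = g := by
    have h1 : Ah 1 (Fm (exx_mu z) (Ah 1 h)) = Rz z h :=
      congrArg (fun L : L2 1 →L[ℂ] L2 1 => L h) (exx_AMA (d := 1) hzi)
    rw [hw, map_neg, h1]
    exact hgR.symm
  set G1 : L2 1 := Fm (si 0) w with hG1
  have hA : ∀ φ : E 1 → ℂ, IsTest φ → pair g (pd 0 φ) = - pair G1 φ := by
    intro φ hφ
    have := weak_grad w 0 φ hφ
    rwa [hAw] at this
  -- Fourier transform of the equation
  have hBMr : BM (fun ξ : E 1 => ((rho ξ : ℂ) - z)⁻¹) := by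
    constructor
    · have h1 : Measurable (fun ξ : E 1 => (rho ξ : ℂ)) := by
        apply Continuous.measurable
        unfold rho
        fun_prop
      exact (h1.sub measurable_const).inv
    · refine ⟨(z.im)⁻¹, fun ξ => ?_⟩
      rw [norm_inv]
      exact inv_anti₀ hzi (exx_im hzi ξ)
  have hFg : (FT 1 k : E 1 → ℂ) =ᵐ[volume] fun ξ => -(rho ξ : ℂ) * (FT 1 g) ξ := by
    have e1 : FT 1 g = -(mulop (fun ξ : E 1 => ((rho ξ : ℂ) - z)⁻¹) (FT 1 h)) := by
      conv_lhs => rw [hgR]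
      rw [map_neg]
      congr 1
      exact Fm_apply _ h
    have e2 : k = h + lam • g := by rw [hhk]; abel
    have e3 : FT 1 k = FT 1 h + lam • FT 1 g := by
      conv_lhs => rw [e2]
      rw [map_add, map_smul]
    rw [e3]
    have e4 := Lp.coeFn_neg (mulop (fun ξ : E 1 => ((rho ξ : ℂ) - z)⁻¹) (FT 1 h))
    rw [← e1] at e4
    filter_upwards [Lp.coeFn_add (FT 1 h) (lam • FT 1 g), Lp.coeFn_smul lam (FT 1 g),
      e4, mulop_spec hBMr (FT 1 h)] with ξ h1 h2 h3 h4
    rw [h1, Pi.add_apply, h2, Pi.smul_apply, smul_eq_mul]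
    rw [Pi.neg_apply, h4] at h3
    have hne : (rho ξ : ℂ) - z ≠ 0 := exx_ne hzi ξ
    have h5 : (FT 1 h) ξ = -((rho ξ : ℂ) - z) * (FT 1 g) ξ := by
      rw [h3]
      field_simp
    rw [h5, hz]
    ring
  have hB : ∀ φ : E 1 → ℂ, IsTest φ → pair G1 (pd 0 φ) = - pair k φ := by
    intro φ hφ
    have h1 := hA (pd 0 φ) (pd_test 0 φ hφ)
    rw [weak_two g k hFg φ hφ] at h1
    rw [h1, neg_neg]
  -- functions on the line
  set U : ℝ → ℂ := fun s => g (eI.symm s) with hU
  set U1 : ℝ → ℂ := fun s => G1 (eI.symm s) with hU1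
  set K : ℝ → ℂ := fun s => k (eI.symm s) with hK
  have mU : MemLp U 2 volume := (Lp.memLp g).comp_measurePreserving mp_symm
  have mU1 : MemLp U1 2 volume := (Lp.memLp G1).comp_measurePreserving mp_symm
  have mK : MemLp K 2 volume := (Lp.memLp k).comp_measurePreserving mp_symm
  have lU : LocallyIntegrable U volume := mU.locallyIntegrable (by norm_num)
  have lU1 : LocallyIntegrable U1 volume := mU1.locallyIntegrable (by norm_num)
  have lK : LocallyIntegrable K volume := mK.locallyIntegrable (by norm_num)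
  have hKU : K =ᵐ[volume] fun s => Q s * U s := by
    have h1 := mp_symm.quasiMeasurePreserving.ae_eq (mulop_spec hBMQ g)
    filter_upwards [h1] with s hs
    change k (eI.symm s) = Q s * g (eI.symm s)
    have h2 : k (eI.symm s) = Q ((eI.symm s) 0) * g (eI.symm s) := hs
    rw [h2, eI_symm]
  obtain ⟨c, hc⟩ := dbr_complex lU lU1 (by
    intro φ hφ hφc
    have h1 := hA (tf φ) (tf_test hφ hφc)
    rw [tf_pd hφ] at h1
    unfold pair at h1
    rw [int_transfer, int_transfer] at h1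
    simp only [tf, eI_symm] at h1
    exact h1)
  obtain ⟨c', hc'⟩ := dbr_complex lU1 lK (by
    intro φ hφ hφc
    have h1 := hB (tf φ) (tf_test hφ hφc)
    rw [tf_pd hφ] at h1
    unfold pair at h1
    rw [int_transfer, int_transfer] at h1
    simp only [tf, eI_symm] at h1
    exact h1)
  have iI : ∀ {W : ℝ → ℂ}, LocallyIntegrable W volume → ∀ a b, IntervalIntegrable W volume a b :=
    fun hW a b => intervalIntegrable_iff.mpr <|
      (hW.integrableOn_isCompact isCompact_uIcc).mono_set uIoc_subset_uIcc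
  set y : ℝ → ℂ := fun s => c + ∫ t in (0 : ℝ)..s, U1 t with hy
  set y1 : ℝ → ℂ := fun s => c' + ∫ t in (0 : ℝ)..s, K t with hy1
  have cy : Continuous y :=
    continuous_const.add (intervalIntegral.continuous_primitive (fun a b => iI lU1 a b) 0)
  have cy1 : Continuous y1 :=
    continuous_const.add (intervalIntegral.continuous_primitive (fun a b => iI lK a b) 0)
  have ey : ∀ s, y s = c + ∫ t in (0 : ℝ)..s, y1 t := by
    intro s
    change c + _ = c + _
    congr 1
    apply intervalIntegral.integral_congr_ae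
    filter_upwards [hc'] with t ht _
    exact ht
  have ey1 : ∀ s, y1 s = c' + ∫ t in (0 : ℝ)..s, Q t * y t := by
    intro s
    change c' + _ = c' + _
    congr 1
    apply intervalIntegral.integral_congr_ae
    filter_upwards [hc, hKU] with t ht ht2 _
    rw [ht2, ht]
  refine ⟨y, y1, ?_, ?_, mU.ae_eq hc, mU1.ae_eq hc', ?_⟩
  · intro s
    have h1 : HasDerivAt (fun u => ∫ t in (0 : ℝ)..u, y1 t) (y1 s) s :=
      intervalIntegral.integral_hasDerivAt_right (cy1.intervalIntegrable _ _)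
        (cy1.stronglyMeasurableAtFilter _ _) cy1.continuousAt
    have h2 : y = fun u => c + ∫ t in (0 : ℝ)..u, y1 t := funext ey
    rw [h2]
    exact h1.const_add c
  · intro s
    have cQ : Continuous (fun t => Q t * y t) := hQ.mul cy
    have h1 : HasDerivAt (fun u => ∫ t in (0 : ℝ)..u, Q t * y t) (Q s * y s) s :=
      intervalIntegral.integral_hasDerivAt_right (cQ.intervalIntegrable _ _)
        (cQ.stronglyMeasurableAtFilter _ _) cQ.continuousAt
    have h2 : y1 = fun u => c' + ∫ t in (0 : ℝ)..u, Q t * y t := funext ey1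
    rw [h2]
    exact h1.const_add c'
  · by_contra hne
    push Not at hne
    apply hg
    apply Lp.ext
    have h1 : U =ᵐ[volume] fun _ => 0 := by
      filter_upwards [hc] with s hs
      rw [hs]
      exact hne s
    have h2 := mp_eI.quasiMeasurePreserving.ae_eq h1
    filter_upwards [h2, Lp.coeFn_zero ℂ 2 (volume : Measure (E 1))] with x hx hx0
    rw [hx0]
    have h3 : g (eI.symm (eI x)) = 0 := hx
    rw [eI.symm_apply_apply] at h3
    rw [h3]
    rfl

end Pool.Agent.K3h9.LT
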